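import Pool.Agent.P8H73.GM.Stm

/-! Auxiliary facts for the packages LOW and SMALL of the project GM. -/

set_option autoImplicit false

namespace Pool.Agent.P8H71.GM

open Finset Pool.Agent.H376R2.MR Pool.Agent.H376R2.TT Pool.Agent.P8H73.GM

theorem one_sub_ge {x : ℝ} (h0 : 0 ≤ x) (h1 : x ≤ 1 / 2) : Real.exp (-(2 * x)) ≤ 1 - x := by
  have h2 := Real.quadratic_le_exp_of_nonneg (x := 2 * x) (by linarith)
  have h3 : 1 ≤ (1 - x) * Real.exp (2 * x) := by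
    have h4 : (1 - x) * (1 + 2 * x + (2 * x) ^ 2 / 2) ≤ (1 - x) * Real.exp (2 * x) := by
      apply mul_le_mul_of_nonneg_left h2; linarith
    have h5 : 1 ≤ (1 - x) * (1 + 2 * x + (2 * x) ^ 2 / 2) := by
      have h6 : x ^ 2 ≤ 1 / 4 := by nlinarith
      nlinarith
    linarith
  rw [Real.exp_neg]
  have hpos := Real.exp_pos (2 * x)
  rw [inv_le_iff_one_le_mul₀ hpos]
  linarith

theorem factor_bounds {p : ℕ} (hp : p.Prime) : 0 < 1 - 1 / (p : ℝ) ∧ 1 - 1 / (p : ℝ) ≤ 1 ∧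
    Real.exp (-(2 * (1 / (p : ℝ)))) ≤ 1 - 1 / (p : ℝ) := by
  have h2 : (2 : ℝ) ≤ p := by exact_mod_cast hp.two_le
  have h0 : 0 < 1 / (p : ℝ) := by positivity
  have h1 : 1 / (p : ℝ) ≤ 1 / 2 := one_div_le_one_div_of_le (by norm_num) h2
  exact ⟨by linarith, by linarith, one_sub_ge h0.le h1⟩

theorem V_pos {K : Finset ℕ} (hK : ∀ p ∈ K, p.Prime) : 0 < V K :=
  prod_pos fun p hp => (factor_bounds (hK p hp)).1

theorem V_ge {K : Finset ℕ} (hK : ∀ p ∈ K, p.Prime) :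
    Real.exp (-(2 * ∑ p ∈ K, 1 / (p : ℝ))) ≤ V K := by
  unfold V
  rw [mul_sum, ← sum_neg_distrib, Real.exp_sum]
  exact prod_le_prod (fun p _ => (Real.exp_pos _).le) fun p hp => (factor_bounds (hK p hp)).2.2

theorem V_split (K : Finset ℕ) (L : ℕ) :
    V K = V (K.filter (fun p => p ≤ L)) * V (K.filter (fun p => ¬ p ≤ L)) := by
  unfold V
  rw [prod_filter_mul_prod_filter_not]

theorem pr_pos {K : Finset ℕ} (hK : ∀ p ∈ K, p.Prime) : 1 ≤ pr K :=
  Nat.one_le_iff_ne_zero.2 (prod_ne_zero_iff.2 fun p hp => (hK p hp).ne_zero)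

theorem pr_div {K : Finset ℕ} (hK : ∀ p ∈ K, p.Prime) :
    (pr K : ℝ) / Nat.totient (pr K) = 1 / V K := by
  have h1 := sw_phi (pr K)
  have h2 : (pr K).primeFactors = K := Nat.primeFactors_prod hK
  rw [h2] at h1
  have h3 : ∏ p ∈ K, (1 - (p : ℝ)⁻¹) = V K := by
    unfold V
    refine prod_congr rfl fun p _ => ?_
    rw [one_div]
  rw [h3] at h1
  have h4 : (pr K : ℝ) ≠ 0 := by
    have := pr_pos hK
    positivity
  have h5 := (V_pos hK).ne'
  rw [h1]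
  field_simp

theorem G_ge {K : Finset ℕ} (hK : ∀ p ∈ K, p.Prime) {D : ℕ} (hD : 1 ≤ D) :
    V K * Real.log D ≤ G K D := by
  have h1 := selwq_G_ge (pr K) D (pr_pos hK) hD
  rw [pr_div hK] at h1
  have h2 := V_pos hK
  calc V K * Real.log D ≤ V K * (1 / V K * selwq_G (pr K) D) := by gcongr
    _ = G K D := by unfold G; field_simp

theorem G_mono (K : Finset ℕ) {D D' : ℕ} (h : D ≤ D') : G K D ≤ G K D' := by
  unfold G selwq_G
  exact sum_le_sum_of_subset_of_nonneg (Icc_subset_Icc le_rfl h) fun m _ _ => selwq_g_nonneg _ _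

theorem coprime_pr {K : Finset ℕ} (hK : ∀ p ∈ K, p.Prime) {r : ℕ} (hr : r.Prime) (hrK : r ∉ K) :
    r.Coprime (pr K) := by
  rw [hr.coprime_iff_not_dvd]
  intro h
  obtain ⟨p, hp, hrp⟩ := (Prime.dvd_finsetProd_iff hr.prime _).1 h
  have : r = p := (Nat.prime_dvd_prime_iff_eq hr (hK p hp)).1 hrp
  exact hrK (this ▸ hp)

theorem h_prime {K : Finset ℕ} (hK : ∀ p ∈ K, p.Prime) {r : ℕ} (hr : r.Prime) (hrK : r ∉ K) :
    1 / (r : ℝ) ≤ selwq_g (pr K) r := by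
  unfold selwq_g sw_g
  rw [if_pos (coprime_pr hK hr hrK), if_pos hr.prime.squarefree, Nat.totient_prime hr]
  have h2 : 2 ≤ r := hr.two_le
  have h1 : (0 : ℝ) < ((r - 1 : ℕ) : ℝ) := by
    have : 0 < r - 1 := by omega
    exact_mod_cast this
  refine one_div_le_one_div_of_le h1 ?_
  have : r - 1 ≤ r := by omega
  exact_mod_cast this

theorem sum_le_add {A R S : Finset ℕ} (f : ℕ → ℝ) (hf : ∀ x, 0 ≤ f x) (h : ∀ x ∈ A, x ∈ R ∨ x ∈ S) :
    ∑ x ∈ A, f x ≤ ∑ x ∈ R, f x + ∑ x ∈ S, f x := by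
  rw [← sum_filter_add_sum_filter_not A (fun x => x ∈ R)]
  have h1 : ∑ x ∈ A.filter (fun x => x ∈ R), f x ≤ ∑ x ∈ R, f x :=
    sum_le_sum_of_subset_of_nonneg (fun x hx => (mem_filter.1 hx).2) fun x _ _ => hf x
  have h2 : ∑ x ∈ A.filter (fun x => ¬ x ∈ R), f x ≤ ∑ x ∈ S, f x :=
    sum_le_sum_of_subset_of_nonneg
      (fun x hx => (h x (mem_filter.1 hx).1).resolve_left (mem_filter.1 hx).2) fun x _ _ => hf x
  linarith

/-- the logarithms of the prime divisors -/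
theorem sum_log_primeFactors (m : ℕ) (hm : 1 ≤ m) : ∑ r ∈ m.primeFactors, Real.log r ≤ Real.log m := by
  rw [← Real.log_prod (fun r hr => by
    have := (Nat.prime_of_mem_primeFactors hr).pos
    positivity)]
  have h1 : ∏ r ∈ m.primeFactors, r ≤ m := Nat.le_of_dvd (by omega) (Nat.prod_primeFactors_dvd m)
  refine Real.log_le_log ?_ ?_
  · refine prod_pos fun r hr => ?_
    have := (Nat.prime_of_mem_primeFactors hr).pos
    exact_mod_cast this
  · rw [← Nat.cast_prod]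
    exact_mod_cast h1

theorem log_div_nonneg (r : ℕ) : 0 ≤ Real.log r / (r : ℝ) :=
  div_nonneg (Real.log_natCast_nonneg r) (Nat.cast_nonneg r)

theorem Mm_mono {S K : Finset ℕ} (h : S ⊆ K) : Mm S ≤ Mm K :=
  sum_le_sum_of_subset_of_nonneg h fun r _ _ => log_div_nonneg r

theorem Mm_nonneg (K : Finset ℕ) : 0 ≤ Mm K := sum_nonneg fun r _ => log_div_nonneg r

/-- `∑ 1 / p` over primes with `log p ≥ a` -/
theorem sum_inv_le {S : Finset ℕ} {a : ℝ} (ha : 0 < a) (h : ∀ p ∈ S, a ≤ Real.log p) :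
    ∑ p ∈ S, 1 / (p : ℝ) ≤ Mm S / a := by
  rw [le_div_iff₀ ha, sum_mul]
  unfold Mm
  refine sum_le_sum fun p hp => ?_
  have h1 := h p hp
  rw [one_div, inv_mul_eq_div]
  gcongr

end Pool.Agent.P8H71.GM
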