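import Pool.Agent.P8H71.GM.Bas

/-! Package LOW of the project GM. -/

set_option autoImplicit false

namespace Pool.Agent.P8H71.GM

open Finset Pool.Agent.H376R2.MR Pool.Agent.H376R2.TT Pool.Agent.P8H73.GM

/-- the primes `r` with `D / L < m r ≤ D` -/
def RR (D L m : ℕ) : Finset ℕ :=
  ((Icc 1 D).filter Nat.Prime).filter (fun r => D < m * r * L ∧ m * r ≤ D)

theorem mem_RR {D L m r : ℕ} : r ∈ RR D L m ↔ (1 ≤ r ∧ r ≤ D) ∧ r.Prime ∧ D < m * r * L ∧ m * r ≤ D := by
  unfold RR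
  rw [mem_filter, mem_filter, mem_Icc, and_assoc]

/-- (A) the sum over all primes in the interval -/
theorem claimA {C₀ : ℝ} (hMER : ∀ x : ℝ, 1 ≤ x →
    |∑ p ∈ (Icc 1 ⌊x⌋₊).filter Nat.Prime, Real.log p / (p : ℝ) - Real.log x| ≤ C₀)
    {D L m : ℕ} (hL : 1 ≤ L) (hm : 1 ≤ m) (hmL : m * L ≤ D) :
    Real.log L - 2 * C₀ ≤ ∑ r ∈ RR D L m, Real.log r / (r : ℝ) := by
  have hm0 : (0 : ℝ) < m := by exact_mod_cast hm
  have hL0 : (0 : ℝ) < L := by exact_mod_cast hL
  have hmD : m ≤ D := le_trans (Nat.le_mul_of_pos_right m hL) hmL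
  have hD0 : (0 : ℝ) < D := by
    have : 0 < D := by omega
    exact_mod_cast this
  set x : ℝ := (D : ℝ) / m with hx
  set y : ℝ := (D : ℝ) / (m * L) with hy
  have hmL' : (m : ℝ) * L ≤ D := by exact_mod_cast hmL
  have hy1 : 1 ≤ y := by rw [hy, le_div_iff₀ (by positivity)]; linarith
  have hxy : x = y * L := by rw [hx, hy]; field_simp
  have hx1 : 1 ≤ x := by
    rw [hxy]
    have : (1 : ℝ) ≤ L := by exact_mod_cast hL
    nlinarith
  have h1 := (abs_le.1 (hMER x hx1)).1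
  have h2 := (abs_le.1 (hMER y hy1)).2
  have h3 : Real.log x = Real.log y + Real.log L := by
    rw [hxy, Real.log_mul (by positivity) (by positivity)]
  have h4 : ∑ p ∈ (Icc 1 ⌊x⌋₊).filter Nat.Prime, Real.log p / (p : ℝ) ≤
      ∑ r ∈ RR D L m, Real.log r / (r : ℝ) +
        ∑ p ∈ (Icc 1 ⌊y⌋₊).filter Nat.Prime, Real.log p / (p : ℝ) := by
    refine sum_le_add (fun r : ℕ => Real.log r / (r : ℝ)) log_div_nonneg fun r hr => ?_
    rw [mem_filter, mem_Icc] at hr
    obtain ⟨⟨hr1, hrx⟩, hrp⟩ := hr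
    have hrx' : (r : ℝ) ≤ x := (Nat.le_floor_iff (by positivity)).1 hrx
    have hmr : m * r ≤ D := by
      rw [hx, le_div_iff₀ hm0] at hrx'
      have : (m : ℝ) * r ≤ D := by linarith
      exact_mod_cast this
    by_cases hry : r ≤ ⌊y⌋₊
    · right
      rw [mem_filter, mem_Icc]
      exact ⟨⟨hr1, hry⟩, hrp⟩
    · left
      have hyr : y < r := by
        by_contra hcon
        push Not at hcon
        exact hry ((Nat.le_floor_iff (by positivity)).2 hcon)
      rw [hy, div_lt_iff₀ (by positivity)] at hyr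
      rw [mem_RR]
      refine ⟨⟨hr1, le_trans (Nat.le_mul_of_pos_left r hm) hmr⟩, hrp, ?_, hmr⟩
      have : (D : ℝ) < m * r * L := by nlinarith
      exact_mod_cast this
  linarith

/-- (E) the prime divisors of `m` in the interval -/
theorem claimE {D L m : ℕ} (hm : 1 ≤ m) (hmD : m ^ 2 ≤ D) (hL : L ^ 4 ≤ D) :
    ∑ r ∈ (RR D L m).filter (fun r => r ∣ m), Real.log r / (r : ℝ) ≤ 2 := by
  have hm0 : (0 : ℝ) < m := by exact_mod_cast hm
  have hDn : 0 < D := lt_of_lt_of_le (pow_pos (by omega) 2) hmD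
  have hD0 : (0 : ℝ) < D := by exact_mod_cast hDn
  have h1 : ∑ r ∈ (RR D L m).filter (fun r => r ∣ m), Real.log r / (r : ℝ) ≤
      ∑ r ∈ m.primeFactors, (m * L / D : ℝ) * Real.log r := by
    have h2 : ∑ r ∈ (RR D L m).filter (fun r => r ∣ m), Real.log r / (r : ℝ) ≤
        ∑ r ∈ (RR D L m).filter (fun r => r ∣ m), (m * L / D : ℝ) * Real.log r := by
      refine sum_le_sum fun r hr => ?_
      rw [mem_filter, mem_RR] at hr
      obtain ⟨⟨⟨hr1, -⟩, -, hr3, -⟩, -⟩ := hr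
      have hr0 : (0 : ℝ) < r := by exact_mod_cast hr1
      have hr3' : (D : ℝ) < m * r * L := by exact_mod_cast hr3
      have h4 : 1 / (r : ℝ) ≤ m * L / D := by
        rw [div_le_div_iff₀ hr0 hD0]
        nlinarith
      calc Real.log r / (r : ℝ) = 1 / (r : ℝ) * Real.log r := by ring
        _ ≤ m * L / D * Real.log r := by
            have := Real.log_natCast_nonneg r
            gcongr
    refine h2.trans (sum_le_sum_of_subset_of_nonneg ?_ fun r _ _ => ?_)
    · intro r hr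
      rw [mem_filter, mem_RR] at hr
      rw [Nat.mem_primeFactors]
      exact ⟨hr.1.2.1, hr.2, by omega⟩
    · have := Real.log_natCast_nonneg r
      positivity
  refine h1.trans ?_
  rw [← mul_sum]
  have h5 := sum_log_primeFactors m hm
  -- y = √m
  set y : ℝ := Real.sqrt m with hy
  have hy2 : y ^ 2 = m := Real.sq_sqrt hm0.le
  have hy0 : 0 < y := Real.sqrt_pos.2 hm0
  have h6 : Real.log m ≤ 2 * y := by
    rw [← hy2, Real.log_pow]
    have := Real.log_le_sub_one_of_pos hy0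
    push_cast
    linarith
  have h7 : y ^ 3 * L ≤ D := by
    have hmD' : (m : ℝ) ^ 2 ≤ D := by exact_mod_cast hmD
    have hL' : (L : ℝ) ^ 4 ≤ D := by exact_mod_cast hL
    have h8 : (y ^ 3 * L) ^ 4 ≤ (D : ℝ) ^ 4 := by
      calc (y ^ 3 * L) ^ 4 = ((y ^ 2) ^ 2) ^ 3 * (L : ℝ) ^ 4 := by ring
        _ = ((m : ℝ) ^ 2) ^ 3 * (L : ℝ) ^ 4 := by rw [hy2]
        _ ≤ (D : ℝ) ^ 3 * D := by gcongr
        _ = (D : ℝ) ^ 4 := by ring
    exact le_of_pow_le_pow_left₀ (by norm_num) hD0.le h8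
  calc (m * L / D : ℝ) * ∑ r ∈ m.primeFactors, Real.log r ≤ (m * L / D : ℝ) * (2 * y) := by
        have h9 : (0 : ℝ) ≤ m * L / D := by positivity
        exact mul_le_mul_of_nonneg_left (h5.trans h6) h9
    _ = 2 * (y ^ 3 * L / D) := by rw [← hy2]; ring
    _ ≤ 2 * 1 := by
        gcongr
        rw [div_le_one hD0]
        exact h7
    _ = 2 := by ring

/-- (1) the double sum -/
theorem claim1 {K : Finset ℕ} (hK : ∀ p ∈ K, p.Prime) {D L : ℕ} (_hD : 1 ≤ D) (hL : 1 ≤ L) (s : ℕ) :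
    ∑ m ∈ Icc 1 s, selwq_g (pr K) m *
      ∑ r ∈ (RR D L m).filter (fun r => r ∉ K ∧ ¬ r ∣ m), Real.log r / (r : ℝ) ≤
      Real.log D * (G K D - G K (D / L)) := by
  set h := selwq_g (pr K) with hh
  have hh0 : ∀ m, 0 ≤ h m := fun m => selwq_g_nonneg _ m
  -- T as a sum
  have hT : G K D - G K (D / L) = ∑ m ∈ (Icc 1 D).filter (fun m => D / L < m), h m := by
    have h1 : (Icc 1 D).filter (fun m => ¬ D / L < m) = Icc 1 (D / L) := by
      ext m
      simp only [mem_filter, mem_Icc, not_lt]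
      have : D / L ≤ D := Nat.div_le_self D L
      constructor
      · rintro ⟨⟨h1, h2⟩, h3⟩; exact ⟨h1, h3⟩
      · rintro ⟨h1, h2⟩; exact ⟨⟨h1, h2.trans this⟩, h2⟩
    unfold G selwq_G
    rw [← sum_filter_add_sum_filter_not (Icc 1 D) (fun m => D / L < m), h1]
    ring
  set P := (Icc 1 D).filter Nat.Prime with hP
  set X : Finset (ℕ × ℕ) := ((Icc 1 D) ×ˢ P).filter (fun x => D / L < x.1 ∧ x.2 ∣ x.1) with hX
  set Y : Finset (ℕ × ℕ) := ((Icc 1 s) ×ˢ P).filter (fun x => (D < x.1 * x.2 * L ∧ x.1 * x.2 ≤ D) ∧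
    x.2 ∉ K ∧ ¬ x.2 ∣ x.1) with hY
  set Fx : ℕ × ℕ → ℝ := fun x => h x.1 * Real.log x.2 with hFx
  have hFx0 : ∀ x, 0 ≤ Fx x := fun x => mul_nonneg (hh0 _) (Real.log_natCast_nonneg _)
  -- upper bound of the sum over X
  have hXle : ∑ x ∈ X, Fx x ≤ Real.log D * (G K D - G K (D / L)) := by
    rw [hX, sum_filter, sum_product, hT, mul_sum, sum_filter]
    refine sum_le_sum fun m hm => ?_
    rw [mem_Icc] at hm
    by_cases hmL : D / L < m
    · simp only [hmL, true_and, if_true]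
      calc ∑ r ∈ P, (if r ∣ m then Fx (m, r) else 0) ≤ ∑ r ∈ m.primeFactors, h m * Real.log r := by
            rw [← sum_filter]
            refine sum_le_sum_of_subset_of_nonneg (fun r hr => ?_) fun r _ _ => hFx0 (m, r)
            rw [mem_filter, hP, mem_filter] at hr
            rw [Nat.mem_primeFactors]
            exact ⟨hr.1.2, hr.2, by omega⟩
        _ = h m * ∑ r ∈ m.primeFactors, Real.log r := by rw [mul_sum]
        _ ≤ h m * Real.log D := by
            apply mul_le_mul_of_nonneg_left _ (hh0 m)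
            refine (sum_log_primeFactors m hm.1).trans (Real.log_le_log ?_ ?_)
            · exact_mod_cast (by omega : 0 < m)
            · exact_mod_cast hm.2
        _ = Real.log D * h m := mul_comm _ _
    · simp only [hmL, false_and, if_false]
      simp
  -- the map
  set φ : ℕ × ℕ → ℕ × ℕ := fun y => (y.1 * y.2, y.2) with hφ
  have hinj : Set.InjOn φ (Y : Set (ℕ × ℕ)) := by
    rintro ⟨a, r⟩ ha ⟨b, r'⟩ hb hab
    simp only [hφ, Prod.mk.injEq] at hab
    obtain ⟨h1, rfl⟩ := hab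
    rw [mem_coe, hY, mem_filter, mem_product, hP, mem_filter, mem_Icc, mem_Icc] at ha
    have hr0 : 0 < r := ha.1.2.1.1
    rw [Nat.mul_right_cancel hr0 h1]
  have hmaps : ∀ y ∈ Y, φ y ∈ X := by
    rintro ⟨a, r⟩ ha
    rw [hY, mem_filter, mem_product, hP, mem_filter, mem_Icc, mem_Icc] at ha
    obtain ⟨⟨⟨ha1, -⟩, ⟨hr1, hr2⟩, hrp⟩, ⟨hlt, hle⟩, -, -⟩ := ha
    rw [hX, mem_filter, mem_product, hP, mem_filter, mem_Icc, mem_Icc]
    simp only [hφ] at *
    refine ⟨⟨⟨Nat.mul_pos (by omega) (by omega), hle⟩, ⟨hr1, hr2⟩, hrp⟩, ?_, Dvd.intro_left a rfl⟩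
    rw [Nat.div_lt_iff_lt_mul (by omega)]
    exact hlt
  have hYle : ∑ y ∈ Y, Fx (φ y) ≤ ∑ x ∈ X, Fx x := by
    rw [← sum_image hinj]
    refine sum_le_sum_of_subset_of_nonneg (fun x hx => ?_) fun x _ _ => hFx0 x
    obtain ⟨y, hy, rfl⟩ := mem_image.1 hx
    exact hmaps y hy
  -- lower bound of the sum over Y
  have hYge : ∑ m ∈ Icc 1 s, h m *
      ∑ r ∈ (RR D L m).filter (fun r => r ∉ K ∧ ¬ r ∣ m), Real.log r / (r : ℝ) ≤
      ∑ y ∈ Y, Fx (φ y) := by
    rw [hY, sum_filter, sum_product]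
    refine sum_le_sum fun m hm => ?_
    rw [mul_sum]
    unfold RR
    rw [filter_filter, sum_filter]
    refine sum_le_sum fun r hr => ?_
    simp only [hφ, hFx]
    split_ifs with hc
    · obtain ⟨-, hrK, hrm⟩ := hc
      have hrp : r.Prime := by rw [mem_filter] at hr; exact hr.2
      have h2 := h_prime hK hrp hrK
      have hcop : Nat.Coprime m r := ((hrp.coprime_iff_not_dvd).2 hrm).symm
      have h3 : h (m * r) = h m * h r := selwq_g_mul _ hcop
      rw [h3]
      have h4 := Real.log_natCast_nonneg r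
      calc h m * (Real.log r / (r : ℝ)) = h m * (1 / (r : ℝ)) * Real.log r := by ring
        _ ≤ h m * h r * Real.log r := by
            have := hh0 m
            gcongr
    · exact le_rfl
  exact hYge.trans (hYle.trans hXle)

/-- (3) the primes in `K` -/
theorem claim3 {C₁ : ℝ} (hUP : ∀ K : Finset ℕ, (∀ p ∈ K, p.Prime) → ∀ (L : ℕ) (t : ℝ), 2 ≤ L → 0 < t →
    ∑ m ∈ (Icc 1 ⌊t⌋₊).filter (fun m : ℕ => t / (L : ℝ) < (m : ℝ)), selwq_g (pr K) m ≤
    C₁ * Real.log L * V (K.filter (fun p => p ≤ L)))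
    {K : Finset ℕ} (hK : ∀ p ∈ K, p.Prime) {D L : ℕ} (hD : 1 ≤ D) (hL : 2 ≤ L) (s : ℕ) :
    ∑ m ∈ Icc 1 s, selwq_g (pr K) m *
      ∑ r ∈ (RR D L m).filter (fun r => r ∈ K), Real.log r / (r : ℝ) ≤
      Mm K * (C₁ * Real.log L * V (K.filter (fun p => p ≤ L))) := by
  set h := selwq_g (pr K) with hh
  have hh0 : ∀ m, 0 ≤ h m := fun m => selwq_g_nonneg _ m
  have hD0 : (0 : ℝ) < D := by exact_mod_cast hD
  have hL0 : (0 : ℝ) < L := by
    have : 0 < L := by omega
    exact_mod_cast this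
  have h1 : ∀ m ∈ Icc 1 s, h m *
      ∑ r ∈ (RR D L m).filter (fun r => r ∈ K), Real.log r / (r : ℝ) ≤
      ∑ r ∈ K, (Real.log r / (r : ℝ)) * (if D < m * r * L ∧ m * r ≤ D then h m else 0) := by
    intro m _
    rw [mul_sum]
    have h2 : ∑ r ∈ (RR D L m).filter (fun r => r ∈ K), h m * (Real.log r / (r : ℝ)) ≤
        ∑ r ∈ K.filter (fun r => D < m * r * L ∧ m * r ≤ D), (Real.log r / (r : ℝ)) * h m := by
      have h3 : ∑ r ∈ (RR D L m).filter (fun r => r ∈ K), h m * (Real.log r / (r : ℝ)) =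
          ∑ r ∈ (RR D L m).filter (fun r => r ∈ K), (Real.log r / (r : ℝ)) * h m :=
        sum_congr rfl fun r _ => mul_comm _ _
      rw [h3]
      refine sum_le_sum_of_subset_of_nonneg (fun r hr => ?_) fun r _ _ =>
        mul_nonneg (log_div_nonneg r) (hh0 m)
      rw [mem_filter, mem_RR] at hr
      rw [mem_filter]
      exact ⟨hr.2, hr.1.2.2⟩
    refine h2.trans (le_of_eq ?_)
    rw [sum_filter]
    refine sum_congr rfl fun r _ => ?_
    split_ifs <;> simp
  refine (sum_le_sum h1).trans ?_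
  rw [sum_comm]
  unfold Mm
  rw [sum_mul]
  refine sum_le_sum fun r hr => ?_
  rw [← mul_sum]
  apply mul_le_mul_of_nonneg_left _ (log_div_nonneg r)
  have hr0 : (0 : ℝ) < r := by exact_mod_cast (hK r hr).pos
  refine le_trans ?_ (hUP K hK L ((D : ℝ) / r) hL (by positivity))
  rw [← sum_filter]
  refine sum_le_sum_of_subset_of_nonneg (fun m hm => ?_) fun m _ _ => hh0 m
  rw [mem_filter, mem_Icc] at hm
  obtain ⟨⟨hm1, -⟩, hlt, hle⟩ := hm
  rw [mem_filter, mem_Icc]
  refine ⟨⟨hm1, ?_⟩, ?_⟩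
  · rw [Nat.le_floor_iff (by positivity), le_div_iff₀ hr0]
    exact_mod_cast hle
  · rw [div_div, div_lt_iff₀ (by positivity)]
    have : (D : ℝ) < m * r * L := by exact_mod_cast hlt
    linarith

theorem low (hUP : S_UP) (hMER : S_MER) : S_LOW := by
  obtain ⟨C₁, hC₁, hUP⟩ := hUP
  obtain ⟨C₀, hC₀, hMER⟩ := hMER
  have he4 : 0 < Real.exp 4 := Real.exp_pos 4
  have he41 : 1 ≤ Real.exp 4 := Real.one_le_exp (by norm_num)
  refine ⟨1 / (8 * C₁ * Real.exp 4), 8 * (2 * C₀ + 2), by positivity, ?_, by linarith, ?_⟩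
  · rw [div_le_one (by positivity)]
    nlinarith
  intro K D L hKD hLD hCL hM2 hMη
  have hK : ∀ p ∈ K, p.Prime := fun p hp => (hKD p hp).1
  set ℓ := Real.log L with hℓ
  set u := Real.log D with hu
  have hℓ0 : 32 ≤ ℓ := by linarith
  have hL2 : 2 ≤ L := by
    by_contra hcon
    push Not at hcon
    have : L = 0 ∨ L = 1 := by omega
    rcases this with h | h <;> rw [hℓ, h] at hℓ0 <;> norm_num at hℓ0
  have hL0 : (0 : ℝ) < L := by
    have : 0 < L := by omega
    exact_mod_cast this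
  have hD1 : 1 ≤ D := le_trans (Nat.one_le_pow _ _ (by omega)) hLD
  have hD0 : (0 : ℝ) < D := by exact_mod_cast hD1
  have hu4 : 4 * ℓ ≤ u := by
    have h1 : Real.log ((L : ℝ) ^ 4) ≤ Real.log D :=
      Real.log_le_log (by positivity) (by exact_mod_cast hLD)
    rw [Real.log_pow] at h1
    push_cast at h1
    exact h1
  have hV := V_pos hK
  set s := Nat.sqrt D with hs
  have hs2 : s ^ 2 ≤ D := Nat.sqrt_le' D
  set h := selwq_g (pr K) with hh
  have hh0 : ∀ m, 0 ≤ h m := fun m => selwq_g_nonneg _ m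
  -- (2) the inner sums
  have hin : ∀ m ∈ Icc 1 s, ℓ - 2 * C₀ - 2 ≤
      ∑ r ∈ (RR D L m).filter (fun r => r ∉ K ∧ ¬ r ∣ m), Real.log r / (r : ℝ) +
      ∑ r ∈ (RR D L m).filter (fun r => r ∈ K), Real.log r / (r : ℝ) := by
    intro m hm
    rw [mem_Icc] at hm
    have hmD : m ^ 2 ≤ D := (Nat.pow_le_pow_left hm.2 2).trans hs2
    have hmL : m * L ≤ D := by
      have h1 : (m * L) ^ 4 ≤ D ^ 4 := by
        calc (m * L) ^ 4 = (m ^ 2) ^ 2 * L ^ 4 := by ring
          _ ≤ D ^ 2 * D := Nat.mul_le_mul (Nat.pow_le_pow_left hmD 2) hLD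
          _ = D ^ 3 := by ring
          _ ≤ D ^ 4 := Nat.pow_le_pow_right (by omega) (by norm_num)
      exact le_of_pow_le_pow_left₀ (by norm_num) (Nat.zero_le _) h1
    have hA := claimA hMER (by omega : 1 ≤ L) hm.1 hmL
    have hE := claimE hm.1 hmD hLD
    have h3 : ∑ r ∈ RR D L m, Real.log r / (r : ℝ) ≤
        ∑ r ∈ (RR D L m).filter (fun r => r ∉ K ∧ ¬ r ∣ m), Real.log r / (r : ℝ) +
        ∑ r ∈ (RR D L m).filter (fun r => r ∈ K) ∪ (RR D L m).filter (fun r => r ∣ m),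
          Real.log r / (r : ℝ) := by
      refine sum_le_add (fun r : ℕ => Real.log r / (r : ℝ)) log_div_nonneg fun r hr => ?_
      by_cases h4 : r ∈ K
      · right
        rw [mem_union]; left
        rw [mem_filter]; exact ⟨hr, h4⟩
      · by_cases h5 : r ∣ m
        · right
          rw [mem_union]; right
          rw [mem_filter]; exact ⟨hr, h5⟩
        · left
          rw [mem_filter]; exact ⟨hr, h4, h5⟩
    have h6 : ∑ r ∈ (RR D L m).filter (fun r => r ∈ K) ∪ (RR D L m).filter (fun r => r ∣ m),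
          Real.log r / (r : ℝ) ≤ ∑ r ∈ (RR D L m).filter (fun r => r ∈ K), Real.log r / (r : ℝ) +
          ∑ r ∈ (RR D L m).filter (fun r => r ∣ m), Real.log r / (r : ℝ) :=
      sum_le_add (fun r : ℕ => Real.log r / (r : ℝ)) log_div_nonneg fun r hr => mem_union.1 hr
    linarith
  -- sum over m
  have h1 := claim1 hK hD1 (by omega : 1 ≤ L) s
  have h3 := claim3 hUP hK hD1 hL2 s
  have hsum : (ℓ - 2 * C₀ - 2) * G K s ≤ u * (G K D - G K (D / L)) +
      Mm K * (C₁ * ℓ * V (K.filter (fun p => p ≤ L))) := by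
    have h4 : (ℓ - 2 * C₀ - 2) * G K s ≤ ∑ m ∈ Icc 1 s, (h m *
        ∑ r ∈ (RR D L m).filter (fun r => r ∉ K ∧ ¬ r ∣ m), Real.log r / (r : ℝ) + h m *
        ∑ r ∈ (RR D L m).filter (fun r => r ∈ K), Real.log r / (r : ℝ)) := by
      unfold G selwq_G
      rw [mul_sum]
      refine sum_le_sum fun m hm => ?_
      have h5 := hin m hm
      rw [← mul_add, mul_comm]
      exact mul_le_mul_of_nonneg_left h5 (hh0 m)
    rw [sum_add_distrib] at h4
    linarith
  -- (4)
  have hVL : V (K.filter (fun p => p ≤ L)) ≤ Real.exp 4 * V K := by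
    have h5 := V_split K L
    have h6 : ∀ p ∈ K.filter (fun p => ¬ p ≤ L), p.Prime := fun p hp => hK p (mem_filter.1 hp).1
    have h7 := V_ge h6
    have h8 : ∑ p ∈ K.filter (fun p => ¬ p ≤ L), 1 / (p : ℝ) ≤ 2 := by
      have h9 := sum_inv_le (S := K.filter (fun p => ¬ p ≤ L)) (a := ℓ) (by linarith) (by
        intro p hp
        rw [mem_filter, not_le] at hp
        exact Real.log_le_log hL0 (by exact_mod_cast hp.2.le))
      have h10 := Mm_mono (filter_subset (fun p => ¬ p ≤ L) K)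
      have h11 : Mm (K.filter (fun p => ¬ p ≤ L)) / ℓ ≤ 2 := by
        rw [div_le_iff₀ (by linarith)]
        linarith
      linarith
    have h12 : Real.exp (-4) ≤ V (K.filter (fun p => ¬ p ≤ L)) :=
      (Real.exp_le_exp.2 (by linarith)).trans h7
    have h13 : ∀ p ∈ K.filter (fun p => p ≤ L), p.Prime := fun p hp => hK p (mem_filter.1 hp).1
    have h14 := V_pos h13
    rw [h5]
    calc V (K.filter (fun p => p ≤ L)) = Real.exp 4 * (V (K.filter (fun p => p ≤ L)) *
          Real.exp (-4)) := by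
          rw [Real.exp_neg]; field_simp
      _ ≤ _ := by gcongr
  -- (5)
  have hGs : V K * (u / 2 - 1) ≤ G K s := by
    have hs1 : 1 ≤ s := Nat.le_sqrt'.2 (by simpa using hD1)
    have h5 := G_ge hK hs1
    have h6 : u / 2 - 1 ≤ Real.log s := by
      have h7 : D < (s + 1) ^ 2 := Nat.lt_succ_sqrt' D
      have h8 : D ≤ (2 * s) ^ 2 := h7.le.trans (Nat.pow_le_pow_left (by omega) 2)
      have h9 : Real.log D ≤ 2 * (Real.log 2 + Real.log s) := by
        have h10 : (D : ℝ) ≤ (2 * (s : ℝ)) ^ 2 := by exact_mod_cast h8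
        have hs0 : (0 : ℝ) < s := by exact_mod_cast hs1
        have h11 := Real.log_le_log hD0 h10
        rw [Real.log_pow, Real.log_mul (by norm_num) hs0.ne'] at h11
        push_cast at h11
        exact h11
      have h12 := Real.log_two_lt_d9
      linarith
    refine le_trans ?_ h5
    gcongr
  -- conclusion
  rw [le_div_iff₀ hV]
  have hMη' : Mm K * (8 * C₁ * Real.exp 4) ≤ u := by
    have : 1 / (8 * C₁ * Real.exp 4) * u * (8 * C₁ * Real.exp 4) = u := by field_simp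
    calc Mm K * (8 * C₁ * Real.exp 4) ≤ 1 / (8 * C₁ * Real.exp 4) * u * (8 * C₁ * Real.exp 4) := by
          gcongr
      _ = u := this
  have hM0 := Mm_nonneg K
  have h4 : Mm K * (C₁ * ℓ * V (K.filter (fun p => p ≤ L))) ≤ 1 / 8 * u * ℓ * V K := by
    calc Mm K * (C₁ * ℓ * V (K.filter (fun p => p ≤ L)))
        ≤ Mm K * (C₁ * ℓ * (Real.exp 4 * V K)) := by gcongr
      _ = (Mm K * (8 * C₁ * Real.exp 4)) * (1 / 8 * ℓ * V K) := by ring
      _ ≤ u * (1 / 8 * ℓ * V K) := by gcongr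
      _ = _ := by ring
  have h5 : (7 / 8 * ℓ) * (V K * (3 / 8 * u)) ≤ (ℓ - 2 * C₀ - 2) * G K s := by
    have h6 : 7 / 8 * ℓ ≤ ℓ - 2 * C₀ - 2 := by linarith
    have h7 : V K * (3 / 8 * u) ≤ G K s := by
      refine le_trans ?_ hGs
      gcongr
      linarith
    have h8 : 0 ≤ V K * (3 / 8 * u) := by
      have : 0 ≤ u := by linarith
      positivity
    exact mul_le_mul h6 h7 h8 (by linarith)
  have h6 : u * (1 / 8 * ℓ * V K) ≤ u * (G K D - G K (D / L)) := by
    have h7 : 0 ≤ u * ℓ * V K := by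
      have : 0 ≤ u := by linarith
      positivity
    nlinarith
  have hu0 : 0 < u := by linarith
  exact le_of_mul_le_mul_left h6 hu0

end Pool.Agent.P8H71.GM
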