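import Pool.Agent.P8H71.GM.Bas

/-! Package SMALL of the project GM. -/

set_option autoImplicit false

namespace Pool.Agent.P8H71.GM

open Finset Pool.Agent.H376R2.MR Pool.Agent.H376R2.TT Pool.Agent.P8H73.GM

/-- the integral part of the fourth root -/
theorem fourth_root (D : ℕ) (hD : 1 ≤ D) : ∃ L : ℕ, 1 ≤ L ∧ L ^ 4 ≤ D ∧ D < (L + 1) ^ 4 := by
  refine ⟨Nat.sqrt (Nat.sqrt D), ?_, ?_, ?_⟩
  · have h1 : 1 ≤ Nat.sqrt D := Nat.le_sqrt'.2 (by simpa using hD)
    exact Nat.le_sqrt'.2 (by simpa using h1)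
  · calc Nat.sqrt (Nat.sqrt D) ^ 4 = (Nat.sqrt (Nat.sqrt D) ^ 2) ^ 2 := by ring
      _ ≤ (Nat.sqrt D) ^ 2 := Nat.pow_le_pow_left (Nat.sqrt_le' _) 2
      _ ≤ D := Nat.sqrt_le' D
  · have h1 : Nat.sqrt D + 1 ≤ (Nat.sqrt (Nat.sqrt D) + 1) ^ 2 := Nat.lt_succ_sqrt' (Nat.sqrt D)
    calc D < (Nat.sqrt D + 1) ^ 2 := Nat.lt_succ_sqrt' D
      _ ≤ ((Nat.sqrt (Nat.sqrt D) + 1) ^ 2) ^ 2 := Nat.pow_le_pow_left h1 2
      _ = _ := by ring

theorem small (hID : S_ID) (hLOW : S_LOW) (hMER : S_MER) : S_SMALL := by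
  obtain ⟨η₁, C₁, hη₁, hη₁1, hC₁, hLOW⟩ := hLOW
  obtain ⟨C₀, hC₀, hMER⟩ := hMER
  have he4 : 0 < Real.exp (-4) := Real.exp_pos _
  have he41 : Real.exp (-4) ≤ 1 := Real.exp_le_one_iff.2 (by norm_num)
  set c : ℝ := Real.exp (-4) / 80 with hc
  have hc0 : 0 < c := by positivity
  refine ⟨min η₁ (1 / 20), c, c * (2 * C₁ + 2 * C₀), by positivity, ?_, hc0, ?_, by positivity, ?_⟩
  · exact (min_le_right _ _).trans (by norm_num)
  · rw [hc]; linarith
  intro K D hKD hD2 hMη
  have hK : ∀ p ∈ K, p.Prime := fun p hp => (hKD p hp).1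
  have hD1 : 1 ≤ D := by omega
  have hD0 : (0 : ℝ) < D := by exact_mod_cast hD1
  have hV := V_pos hK
  set u := Real.log D with hu
  set M := Mm K with hM
  have hM0 : 0 ≤ M := Mm_nonneg K
  by_cases hsmall : M ≤ 2 * C₁
  · have h1 := hID K ∅ hK (empty_subset K) D hD1
    simp only [sum_empty, mul_zero, add_zero] at h1
    have h2 : c * M ≤ c * (2 * C₁ + 2 * C₀) := by gcongr; linarith
    linarith
  push Not at hsmall
  have hu0 : 0 ≤ u := Real.log_natCast_nonneg D
  have hM1 : M ≤ η₁ * u := hMη.trans (by gcongr; exact min_le_left _ _)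
  have hM2 : M ≤ 1 / 20 * u := hMη.trans (by gcongr; exact min_le_right _ _)
  have hu40 : 40 * C₁ ≤ u := by linarith
  set S := K.filter (fun p : ℕ => M / 2 ≤ Real.log p) with hS
  have hSK : S ⊆ K := filter_subset _ _
  have hdiff : ∀ p ∈ S, 1 / 40 * Real.log p ≤ (G K D - G K (D / p)) / V K := by
    intro p hp
    rw [hS, mem_filter] at hp
    obtain ⟨hpK, hpM⟩ := hp
    obtain ⟨hpp, hpD⟩ := hKD p hpK
    have hlogp : 0 ≤ Real.log p := Real.log_natCast_nonneg p
    by_cases h4 : p ^ 4 ≤ D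
    · have h5 := hLOW K D p hKD h4 (by linarith) (by linarith) hM1
      linarith
    · push Not at h4
      obtain ⟨L, hL1, hL4, hL5⟩ := fourth_root D hD1
      have hL0 : (0 : ℝ) < L := by exact_mod_cast hL1
      have hLu : u / 5 ≤ Real.log L := by
        have h6 : D ≤ (2 * L) ^ 4 := hL5.le.trans (Nat.pow_le_pow_left (by omega) 4)
        have h7 : (D : ℝ) ≤ (2 * (L : ℝ)) ^ 4 := by exact_mod_cast h6
        have h8 := Real.log_le_log hD0 h7
        rw [Real.log_pow, Real.log_mul (by norm_num) hL0.ne'] at h8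
        push_cast at h8
        have h9 := Real.log_two_lt_d9
        linarith
      have hLp : L ≤ p := by
        by_contra hcon
        push Not at hcon
        have : p ^ 4 ≤ L ^ 4 := Nat.pow_le_pow_left hcon.le 4
        omega
      have h5 := hLOW K D L hKD hL4 (by linarith) (by linarith) hM1
      have h6 : D / p ≤ D / L := Nat.div_le_div_left hLp (by omega)
      have h7 := G_mono K h6
      have h8 : (G K D - G K (D / L)) / V K ≤ (G K D - G K (D / p)) / V K := by gcongr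
      have h9 : Real.log p ≤ u :=
        Real.log_le_log (by exact_mod_cast hpp.pos) (by exact_mod_cast hpD)
      linarith
  have hVS : Real.exp (-4) ≤ V S := by
    have h1 := V_ge (K := S) fun p hp => hK p (hSK hp)
    have h2 := sum_inv_le (S := S) (a := M / 2) (by linarith) (by
      intro p hp
      rw [hS, mem_filter] at hp
      exact hp.2)
    have h3 := Mm_mono hSK
    have h4 : Mm S / (M / 2) ≤ 2 := by
      rw [div_le_iff₀ (by linarith)]
      linarith
    exact (Real.exp_le_exp.2 (by linarith)).trans h1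
  have hMS : M / 2 - C₀ ≤ Mm S := by
    have h1 : M = Mm S + Mm (K.filter (fun p : ℕ => ¬ M / 2 ≤ Real.log p)) := by
      conv_lhs => rw [hM]
      unfold Mm
      rw [hS, sum_filter_add_sum_filter_not]
    have hx1 : 1 ≤ Real.exp (M / 2) := Real.one_le_exp (by linarith)
    have h2 := (abs_le.1 (hMER (Real.exp (M / 2)) hx1)).2
    rw [Real.log_exp] at h2
    have h3 : Mm (K.filter (fun p : ℕ => ¬ M / 2 ≤ Real.log p)) ≤
        ∑ p ∈ (Icc 1 ⌊Real.exp (M / 2)⌋₊).filter Nat.Prime, Real.log p / (p : ℝ) := by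
      unfold Mm
      refine sum_le_sum_of_subset_of_nonneg (fun p hp => ?_) fun p _ _ => log_div_nonneg p
      rw [mem_filter, not_le] at hp
      have hp0 : (0 : ℝ) < p := by exact_mod_cast (hK p hp.1).pos
      rw [mem_filter, mem_Icc]
      refine ⟨⟨(hK p hp.1).one_lt.le, ?_⟩, hK p hp.1⟩
      rw [Nat.le_floor_iff (Real.exp_pos _).le]
      exact ((Real.log_lt_iff_lt_exp hp0).1 hp.2).le
    linarith
  have h1 := hID K S hK hSK D hD1
  have h2 : 1 / 40 * Mm S ≤ ∑ p ∈ S, 1 / (p : ℝ) * ((G K D - G K (D / p)) / V K) := by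
    unfold Mm
    rw [mul_sum]
    refine sum_le_sum fun p hp => ?_
    have h3 := hdiff p hp
    have hp0 : (0 : ℝ) < p := by exact_mod_cast (hK p (hSK hp)).pos
    calc 1 / 40 * (Real.log p / (p : ℝ)) = 1 / (p : ℝ) * (1 / 40 * Real.log p) := by ring
      _ ≤ _ := by gcongr
  have hMS0 : 0 ≤ Mm S := Mm_nonneg S
  have h3 : Real.exp (-4) * (1 / 40 * Mm S) ≤
      V S * ∑ p ∈ S, 1 / (p : ℝ) * ((G K D - G K (D / p)) / V K) := by
    have h4 : 0 ≤ 1 / 40 * Mm S := by positivity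
    exact mul_le_mul hVS h2 h4 (he4.le.trans hVS)
  have h4 : c * M - c * (2 * C₀) ≤ Real.exp (-4) * (1 / 40 * Mm S) := by
    have h5 : Real.exp (-4) * (1 / 40 * (M / 2 - C₀)) ≤ Real.exp (-4) * (1 / 40 * Mm S) := by
      gcongr
    have h6 : Real.exp (-4) * (1 / 40 * (M / 2 - C₀)) = c * M - c * (2 * C₀) := by
      rw [hc]; ring
    linarith
  have h7 : 0 ≤ c * (2 * C₁) := by positivity
  have h8 : c * (2 * C₁ + 2 * C₀) = c * (2 * C₁) + c * (2 * C₀) := by ring
  rw [h8]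
  linarith

end Pool.Agent.P8H71.GM
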